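import Pool.Agent.MP_66cee2_co.ME.Sel
import Pool.Agent.MP_66cee2_co.DY.PW

/-! Points selected among the averaged values of one configuration. -/

namespace Pool.Agent.MP_66cee2_co.ME

open MeasureTheory Filter Topology Matrix Metric Pool.Agent.MP_66cee2_co.XT
  Pool.Agent.MP_66cee2_co.DX Pool.Agent.MP_66cee2_co.DX.PWx

variable {M n : ℕ} {c : ℕ → Wg (GG M)} {q : ℕ → Ec (M + 1) → GG M} {σ : ℕ → ℕ}
  {w : Om KK (M + 1) n} {C ε : ℝ} {O₁ O₂ : Set (Ec (M + 1))}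

/-- the sets that carry a vanishing part of the averaged values near `v`. -/
def Ng (c : ℕ → Wg (GG M)) (q : ℕ → Ec (M + 1) → GG M) (σ : ℕ → ℕ) (w : Om KK (M + 1) n)
    (v : Ec (M + 1)) : Set (Eu n) → Prop :=
  Ngl (fun k => (c (σ k)).N) (fun k i => (c (σ k)).c i) fun k i => w.2.2 (yy c q (σ k) i v)

theorem meas_q (hq : Pt1 q) (j : ℕ) (φ : GG M → ℝ) : Measurable fun v => φ (q j v) := by
  intro s _
  have e : (fun v => φ (q j v)) ⁻¹' s = ⋃ z ∈ φ ⁻¹' s, {v | q j v = z} := by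
    ext v
    simp
  rw [e]
  exact MeasurableSet.biUnion (Set.to_countable _) fun z _ => hq.meas j z

theorem meas_ng (hq : Pt1 q) (S : Set (Eu n)) : MeasurableSet {v | Ng c q σ w v S} :=
  measurableSet_tendsto (𝓝 (0 : ℝ)) fun k => meas_q hq (σ k) fun y =>
    mass (c (σ k)).N (fun i => (c (σ k)).c i) (fun i => w.2.2 (y + (c (σ k)).p i)) S

theorem near_ps (hc : Sm c) (hq : Pt1 q) (hσ : Tendsto σ atTop atTop)
    (hw : w ∈ XS1 C ε O₁ O₂) {v : Ec (M + 1)} (hr : Rl v) :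
    ∀ᶠ k in atTop, ∀ i, ‖ps w (em (yy c q (σ k) i v))‖ ≤ ‖ps w v‖ + 1 := by
  filter_upwards [near_ev hc hq hσ one_pos] with k hk i
  have h2 : ‖ps w (em (yy c q (σ k) i v)) - ps w v‖ ≤ 1 := by
    rw [ps_sub, norm_rot hw.1]
    exact hk i v hr
  have h3 := norm_sub_norm_le (ps w (em (yy c q (σ k) i v))) (ps w v)
  linarith

theorem not_ng (hc : Sm c) (hq : Pt1 q) (hσ : Tendsto σ atTop atTop)
    (hw : w ∈ XS1 C ε O₁ O₂) {v : Ec (M + 1)} (hr : Rl v) :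
    ∃ R, ¬ Ng c q σ w v (closedBall 0 R) := by
  refine ⟨C + 2 * (‖ps w v‖ + 1), not_ngl (fun k => (hc _).one) ?_⟩
  filter_upwards [near_ps hc hq hσ hw hr] with k hk i
  rw [mem_closedBall_zero_iff]
  linarith [hw.2.1 (yy c q (σ k) i v), hk i]

theorem appr (hc : Sm c) (hq : Pt1 q) (hσ : Tendsto σ atTop atTop) (hw : ∀ j, ‖w.2.1 j‖ = 1)
    {O : Set (Ec (M + 1))} (hO : IsOpen O) {v : Ec (M + 1)} (hr : Rl v) (hv : ps w v ∈ O)
    {u : Eu n} (hu : ∀ r, 0 < r → ¬ Ng c q σ w v (closedBall u r)) {η : ℝ} (hη : 0 < η) :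
    ∃ t : GG M, ‖em t - v‖ ≤ η ∧ ps w (em t) ∈ O ∧ ‖w.2.2 t - u‖ ≤ η := by
  obtain ⟨k, ⟨i, hi⟩, h1, h2⟩ := ((freq (hu η hη)).and_eventually
    ((near_ev hc hq hσ hη).and (mem_ev hc hq hσ hw hO hr hv))).exists
  exact ⟨_, h1 i v hr, h2 i, mem_closedBall_iff_norm.1 hi⟩

theorem contr (hc : Sm c) (hq : Pt1 q) (hσ : Tendsto σ atTop atTop) (hw : w ∈ XS1 C ε O₁ O₂)
    (o1 : IsOpen O₁) (o2 : IsOpen O₂) {v v' : Ec (M + 1)} (hr : Rl v) (hr' : Rl v')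
    (hv : ps w v ∈ O₁) (hv' : ps w v' ∈ O₂) {u u' : Eu n}
    (hu : ∀ r, 0 < r → ¬ Ng c q σ w v (closedBall u r))
    (hu' : ∀ r, 0 < r → ¬ Ng c q σ w v' (closedBall u' r)) : ‖u - u'‖ ≤ ‖v - v'‖ - ε := by
  refine le_of_forall_pos_le_add fun η hη => ?_
  have h4 : 0 < η / 4 := by positivity
  obtain ⟨t, a1, a2, a3⟩ := appr hc hq hσ hw.1 o1 hr hv hu h4
  obtain ⟨t', b1, b2, b3⟩ := appr hc hq hσ hw.1 o2 hr' hv' hu' h4
  have h := hw.2.2.2 t t' a2 b2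
  rw [← dist_eq_norm] at a1 a3 b1 b3
  rw [← dist_eq_norm, ← dist_eq_norm] at h ⊢
  have k1 := dist_triangle4_right u u' (w.2.2 t) (w.2.2 t')
  have k2 := dist_triangle4_right (em t) (em t') v v'
  rw [dist_comm] at a3 b3
  linarith

variable {ι : Type} [Fintype ι] {J : Matrix ι ι ℝ} {F : Eu n → ι → ℝ}
  {χ : Ec (M + 1) → ℝ} {ν : Measure (Om KK (M + 1) n)}

theorem Q_sq (s : Finset ℕ) (a : ℕ → ℝ) (G : ℕ → ι → ℝ) (y : ι → ℝ) :
    y ⬝ᵥ PWA.Q s a G *ᵥ y = ∑ i ∈ s, a i * (G i ⬝ᵥ y) ^ 2 := by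
  rw [PWA.Q, sum_mulVec, dotProduct_sum]
  refine Finset.sum_congr rfl fun i _ => ?_
  rw [smul_mulVec, vecMulVec_mulVec, dotProduct_smul, op_smul_eq_smul, dotProduct_smul,
    dotProduct_comm y, smul_eq_mul, smul_eq_mul, sq]

theorem ker (hF : Continuous F) (hχ : Wt ν F χ) (hc : Sm c) (hq : Pt1 q)
    (hσ : Tendsto σ atTop atTop) (hw : w ∈ XS1 C ε O₁ O₂) {v : Ec (M + 1)} (hr : Rl v)
    {P : Matrix ι ι ℝ}
    (hP : ∀ a b, Tendsto (fun k => PK χ F c q (σ k) v w a b) atTop (𝓝 (P a b)))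
    {u : Eu n} (hu : ∀ r, 0 < r → ¬ Ng c q σ w v (closedBall u r)) {y : ι → ℝ}
    (hy : P *ᵥ y = 0) : F u ⬝ᵥ y = 0 := by
  obtain ⟨κ, hκ, h⟩ := hχ.low (‖ps w v‖ + 1)
  have cd : Continuous fun A : Matrix ι ι ℝ => y ⬝ᵥ A *ᵥ y :=
    continuous_const.dotProduct (continuous_id.matrix_mulVec continuous_const)
  have hd := (cd.tendsto P).comp
    (tendsto_pi_nhds.2 fun a => tendsto_pi_nhds.2 fun b => hP a b)
  rw [hy, dotProduct_zero] at hd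
  refine zero_of_ngl (b := fun k i => χ (ps w (em (yy c q (σ k) i v))))
    (φ := fun u => F u ⬝ᵥ y) (fun k i => (hc _).pos i) hκ
    ((near_ps hc hq hσ hw hr).mono fun k hk i => h _ (hk i)) hu
    (hF.dotProduct continuous_const) (hd.congr fun k => ?_)
  simp only [Function.comp_apply]
  rw [PK_eq, Q_sq]

theorem unit {P P' : Matrix ι ι ℝ} {u u' : Eu n}
    (h : ∀ y, P *ᵥ y = 0 → F u ⬝ᵥ y = 0) (h' : ∀ y, P' *ᵥ y = 0 → F u' ⬝ᵥ y = 0)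
    (h0 : P * J * P'ᵀ = 0) : F u ⬝ᵥ J *ᵥ F u' = 0 := by
  have h1 : P' *ᵥ (F u ᵥ* J) = 0 := by
    refine dotProduct_self_eq_zero.1 ?_
    have h2 := h (J *ᵥ (P'ᵀ *ᵥ (P' *ᵥ (F u ᵥ* J)))) (by
      rw [mulVec_mulVec, mulVec_mulVec, h0, zero_mulVec])
    rwa [dotProduct_mulVec, dotProduct_mulVec, vecMul_transpose] at h2
  rw [dotProduct_mulVec, dotProduct_comm]
  exact h' _ h1

end Pool.Agent.MP_66cee2_co.ME
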