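import Pool.Agent.MP_66cee2_co.DY.SY

/-! The invariant measure on the configurations whose values lie in a closed set. -/

namespace Pool.Agent.MP_66cee2_co.ME

open Set Metric Complex MeasureTheory Pool.Agent.MP_66cee2_co.XT Pool.Agent.MP_66cee2_co.DX

open SYx in
theorem syz {M n : ℕ} {f : Ec (M + 1) → Eu n} {C ε : ℝ} {O₁ O₂ : Set (Ec (M + 1))}
    {Z : Set (Eu n)} (hZ : IsClosed Z) (o1 : IsOpen O₁) (o2 : IsOpen O₂)
    (h1 : ∀ x y, Rl (x - y) → ‖x - y‖ = 1 → ‖f x - f y‖ = 1) (h2 : ∀ x, ‖f x‖ ≤ C + 2 * ‖x‖)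
    (h3 : ∀ p ∈ O₁, ∀ q ∈ O₂, ‖f p - f q‖ ≤ ‖p - q‖ - ε) (h4 : ∀ x, f x ∈ Z) :
    ∃ ν : Measure (Om KK (M + 1) n), Sy1 C ε O₁ O₂ ν ∧ ∀ᵐ w ∂ν, ∀ z, w.2.2 z ∈ Z := by
  have cz : IsClosed {w : Om KK (M + 1) n | ∀ z, w.2.2 z ∈ Z} := by
    simp only [ofPred_forall]
    exact isClosed_iInter fun z => hZ.preimage (by fun_prop)
  have hI : (I : ℂ) ∈ KK := X.kk_le_KK ⟨⟨0, by simp⟩, 1, by simp⟩
  obtain ⟨i, hi⟩ : ∃ i : KK, (i : ℂ) = I := ⟨⟨I, hI⟩, rfl⟩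
  have hc : Countable (GG M)ˣ := Units.val_injective.countable
  have hc' : Countable (Additive (UG1 M)) := (inferInstance : Countable (UG1 M))
  obtain ⟨M₁, k1⟩ := rowMEAN (GG M)
  obtain ⟨M₂, k2⟩ := rowMEAN (Additive (UG1 M))
  have b1 : ∀ {φ : Om KK (M + 1) n → ℝ}, Cl φ → ∀ l, Bd fun a => FUNA.Ph f i φ a l := fun h l =>
    (FUNA.fin f hi h).imp fun D hD a => (hD a l).2
  have b2 : ∀ {φ : Om KK (M + 1) n → ℝ}, Cl φ →
      Bd fun l : Additive (UG1 M) => M₁ fun a => FUNA.Ph f i φ a l.toMul.1.1 := fun h =>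
    (FUNA.fin f hi h).imp fun D hD l => FUNA.mean_abs k1 fun a => (hD a _).2
  have fs : ∀ {φ : Om KK (M + 1) n → ℝ}, Cl φ → ∀ a l,
      (Function.support fun r => φ (FUNA.W f (FUNA.ga i r + a) l)).Finite := fun h a l =>
    (FUNA.fin f hi h).elim fun D hD => (hD a l).1
  obtain ⟨ν, a1, a2, a3, a4⟩ := MEASA.abs_meas (Ω := Om KK (M + 1) n) (N := fun w => ‖w.1‖)
    (S := XS1 C ε O₁ O₂ ∩ {w | ∀ z, w.2.2 z ∈ Z}) (by fun_prop) ((closed o1 o2).inter cz)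
    (fun R => (compact o1 o2 R).of_isClosed_subset (((closed o1 o2).inter cz).inter
      (isClosed_le continuous_fst.norm continuous_const)) fun w hw => ⟨hw.1.1, hw.2⟩)
    Cl (fun _ h => h)
    (fun φ => M₂ fun l => M₁ fun a => FUNA.Ph f i φ a l.toMul.1.1)
    (fun φ ψ hφ hψ => by
      rw [← k2.add _ _ (b2 hφ) (b2 hψ)]
      refine congrArg M₂ (funext fun l => ?_)
      rw [← k1.add _ _ (b1 hφ _) (b1 hψ _)]
      exact congrArg M₁ (funext fun a => finsum_add_distrib (fs hφ a _) (fs hψ a _)))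
    (fun c φ hφ => by
      rw [← k2.smul _ _ (b2 hφ)]
      refine congrArg M₂ (funext fun l => ?_)
      rw [← k1.smul _ _ (b1 hφ _)]
      exact congrArg M₁ (funext fun a => (mul_finsum _ c).symm))
    (fun φ hφ h0 => FUNA.mean_ge k2 (b2 hφ) fun l => FUNA.mean_ge k1 (b1 hφ _) fun a =>
      finsum_nonneg fun r => h0 _)
    (fun φ ψ h => congrArg M₂ (funext fun l => congrArg M₁ (funext fun a =>
      finsum_congr fun r => h _ ⟨W_mem h1 h2 h3 _ l.toMul.2, fun _ => h4 _⟩)))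
    ⟨√(((M + 1 : ℕ) : ℝ) * 2 ^ 2), fun φ hφ h0 h =>
      FUNA.mean_ge k2 (b2 hφ) fun l => FUNA.mean_ge k1 (b1 hφ _) fun a =>
        (h _ ⟨W_mem h1 h2 h3 _ l.toMul.2, fun _ => h4 _⟩ (FUNA.near hi a)).trans
          (single_le_finsum (f := fun r => φ (FUNA.W f (FUNA.ga i r + a) l.toMul.1.1)) _
            (fs hφ a _) fun r => h0 _)⟩
  refine ⟨ν, ⟨a1.mono fun w hw => hw.1, a2, a3, fun a' l' hl => a4 _ ‖XT.em a'‖ (mv_cont a' l')
    (fun w hw => ⟨⟨(mv_mem a' hl w hw.1).1, fun z => hw.2 _⟩, (mv_mem a' hl w hw.1).2⟩)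
    fun φ hφ => ?_⟩, a1.mono fun w hw => hw.2⟩
  obtain ⟨u, rfl⟩ := ex_unit hl
  rw [← k2.inv _ (Additive.ofMul u) (b2 hφ)]
  refine congrArg M₂ (funext fun l => ?_)
  rw [← k1.inv _ (l.toMul.1.1 * a') (b1 hφ _)]
  refine congrArg M₁ (funext fun a => finsum_congr fun r => ?_)
  beta_reduce
  rw [FUNA.mv_W, add_assoc]
  rfl

end Pool.Agent.MP_66cee2_co.ME
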