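import Pool.Agent.MP_66cee2_co.DY.Main
import Pool.Agent.MP_66cee2_co.XJ.Sig
import Pool.Agent.MP_66cee2_co.XJ.Up
import Pool.Agent.MP_66cee2_co.H80.Lift
import Pool.Agent.MP_66cee2_co.ME.SY
import Pool.Agent.MP_66cee2_co.ME.Pt

/-! From an arbitrary unit distance preserving map to a measurable one. -/

namespace Pool.Agent.MP_66cee2_co.ME

open MeasureTheory Filter Topology Matrix Pool.Agent.MP_66cee2_co.XT Pool.Agent.MP_66cee2_co.XT.TA
  Pool.Agent.MP_66cee2_co.DX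

open T1x in
theorem core {M n : ℕ} {ι : Type} [Fintype ι] {J : Matrix ι ι ℝ} {g : ι → ℝ} {F : Eu n → ι → ℝ}
    (hL : Lift J g F) {Z : Set (Eu n)} (hZ : IsClosed Z) {f : Eu (M + 2) → Eu n}
    (hf : ∀ x y, ‖x - y‖ = 1 → ‖f x - f y‖ = 1) (hne : ¬∀ x y, ‖f x - f y‖ = ‖x - y‖)
    (hfZ : ∀ x, f x ∈ Z) :
    ∃ u : Eu (M + 2) → Eu n, AEMeasurable u volume ∧ (∀ x, u x ∈ Z) ∧
      (∀ x y, ‖x - y‖ = 1 → ‖u x - u y‖ = 1) ∧ ∃ x y, ‖u x - u y‖ ≠ ‖x - y‖ := by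
  obtain ⟨C, ε, U₁, U₂, hε, o1, o2, n1, n2, hb, hd⟩ := rowDEF (M + 2) n f (by omega) hf hne
  obtain ⟨e, π, e1, e2, e3, e4, e5⟩ := rowEM M
  have o1' : IsOpen (π ⁻¹' U₁) := o1.preimage π.continuous
  have o2' : IsOpen (π ⁻¹' U₂) := o2.preimage π.continuous
  obtain ⟨ν, hν, hνZ⟩ := syz (f := fun x => f (π x)) (C := C) (ε := ε) hZ o1' o2'
    (fun x y h h' => hf _ _ (by rw [← map_sub, e3 _ h, h']))
    (fun x => (hb (π x)).trans (by linarith [e2 x]))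
    (fun p hp q hq => (hd _ hp _ hq).trans (by rw [← map_sub]; linarith [e2 (p - q)]))
    fun x => hfZ _
  obtain ⟨q, hq⟩ := rowPT M
  obtain ⟨χ, hχ⟩ := rowCHI1 M n C ε _ _ ν ι F hν hL.cont
  obtain ⟨c, hc, hc'⟩ := ofMN rowREP rowMIN M n C ε _ _ ν hν (ι × ι)
    (fun t => xi χ F t.1 t.2) fun t => hχ.mem _ _
  obtain ⟨c1, c2, c3⟩ := ofCA (ofCOR rowREP rowRP) rowSP M n C ε _ _ ν ι J g F χ c q hν hL hχ hc
    (fun a b => hc' (a, b)) hq
  obtain ⟨σ, hσ, hlim⟩ := rowLIM (Om KK (M + 1) n) (Eu (M + 2)) (ι × ι) ν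
    (fun t j x w => PK χ F c q j (e x) w t.1 t.2) (fun t j x => c1 _ _ j _) fun t η hη =>
      (c2 t.1 t.2 η hη).imp fun N hN j j' h1 h2 x => hN j j' h1 h2 _ (e1 x)
  obtain ⟨p1, p2⟩ := rowPW1 M n C ε _ _ ν ι J g F χ c q σ hL hχ hc hq hσ o1' o2'
  have := sfin1 hν
  have hPJ := fun k => meas_PK (c := c) hχ.meas hL.cont hq (σ k)
  obtain ⟨P, hPm, hP⟩ := exists_lim (G := fun k => PK χ F c q (σ k)) hPJ
  have hG : ∀ x, ∀ᵐ w ∂ν, ∀ a b,
      Tendsto (fun k => PK χ F c q (σ k) (e x) w a b) atTop (𝓝 (P (e x) w a b)) := fun x => by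
    filter_upwards [hlim x] with w hw a b
    exact hP _ w a b (hw (a, b))
  have hO : ∀ x z : Eu (M + 2), ‖z‖ = 1 → e z 0 ≠ 0 →
      ∀ᵐ w ∂ν, P (e x) w * J * (P (e (x + z)) w)ᵀ = 0 := fun x z hz hz' => by
    have h3 := (c3 (e x) (e z) (e1 x) (e1 z) (by rw [e.norm_map, hz]) hz').comp hσ
    rw [← map_add] at h3
    have h0 := fatou (L := fun w => (P (e x) w * J * P (e (x + z)) w * J).trace)
      (fun k => int_trace J (fun a b => c1 a b (σ k) (e x)) fun a b => c1 a b (σ k) (e (x + z)))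
      (fun k w => (rowTR ι J _ _ hL.sym (p1 _ _ w) (p1 _ _ w)).1)
      (by
        filter_upwards [hG x, hG (x + z)] with w h1 h2
        exact tendsto_trace J h1 h2) h3
    filter_upwards [h0, hG x, hG (x + z), hν.ae] with w h h1 h2 hw
    have q1 := (p2 w hw _ _ (e1 _) h1).1.1
    have q2 := (p2 w hw _ _ (e1 _) h2).1.1
    have q3 : (P (e (x + z)) w)ᵀ = P (e (x + z)) w := q2.1
    rw [q3]
    exact (rowTR ι J _ _ hL.sym q1 q2).2 h
  have me : Measurable e := e.continuous.measurable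
  have hG' := swap4 (G := fun k => PK χ F c q (σ k)) me hPJ hPm hG
  have hO' := swap3 (ν := ν) (J := J) me hPm (by
    filter_upwards [sig_ae (d := M + 2) (by omega), e4] with z h1 h2 x
    exact hO x z h1 h2)
  have := ae_neBot.2 hν.ne
  obtain ⟨w, hw, hz, hg, ho⟩ := (hν.ae.and (hνZ.and (hG'.and hO'))).exists
  obtain ⟨u, um, hu⟩ := sel (fun x : Eu (M + 2) => Ng c q σ w (e x))
    (fun x => idl_ngl (fun k i => (hc _).pos i) _) (fun x => not_ng hc hq hσ hw (e1 x))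
    fun a r => me (meas_ng hq _)
  have uZ : ∀ x, u x ∈ Z := fun x =>
    hZ.closure_subset (mem_of_ngl (hu x) (Eventually.of_forall fun k i => hz _))
  have m1 : Measurable fun x => F (u x) := hL.cont.measurable.comp um
  have m2 : Measurable fun x => J *ᵥ F (u x) :=
    (continuous_const.matrix_mulVec hL.cont).measurable.comp um
  have hA := X.sUp X.sSig (M + 2) ι (fun x => F (u x)) (fun x => J *ᵥ F (u x))
    (fun a => (measurable_pi_apply a).comp m1) (fun a => (measurable_pi_apply a).comp m2) (by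
      filter_upwards [hg, ho, X.sSig.right (M + 2) _ hg] with x h1 h2 h3
      filter_upwards [h2, h3] with z h4 h5
      exact unit (fun y => ker hL.cont hχ hc hq hσ hw (e1 _) h1 (hu x))
        (fun y => ker hL.cont hχ hc hq hσ hw (e1 _) h5 (hu (x + z))) h4)
  obtain ⟨u', a1, a2, a3⟩ := H80.lift (d := M + 2) (by omega) hZ um.aemeasurable
    (Eventually.of_forall uZ) fun z hz' => by
      filter_upwards [hA z hz'] with x hx
      rw [hL.ip] at hx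
      nlinarith [norm_nonneg (u x - u (x + z))]
  have ex : ∀ {O : Set (Eu (M + 2))}, IsOpen O → O.Nonempty →
      ∃ x, ps w (e x) ∈ π ⁻¹' O ∧ u' x = u x := by
    intro O hO' ⟨o, ho'⟩
    have h1 : IsOpen {x | ps w (e x) ∈ π ⁻¹' O} := (hO'.preimage π.continuous).preimage
      (continuous_ps.comp (continuous_const.prodMk e.continuous))
    obtain ⟨x, hx⟩ := e5 w.2.1 w.1 o hw.1 hw.2.2.1.1
    exact (Measure.dense_of_ae a1).inter_open_nonempty _ h1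
      ⟨x, show π (w.1 + rot w.2.1 (e x)) ∈ O from hx ▸ ho'⟩
  obtain ⟨x, x1, x2⟩ := ex o1 n1
  obtain ⟨y, y1, y2⟩ := ex o2 n2
  have r := contr hc hq hσ hw o1' o2' (e1 x) (e1 y) x1 y1 (hu x) (hu y)
  rw [← map_sub, e.norm_map, ← x2, ← y2] at r
  exact ⟨u', um.aemeasurable.congr a1.symm, a2, a3, x, y, ne_of_lt (by linarith)⟩

theorem main (d n : ℕ) (hd : 2 ≤ d) (f : Eu d → Eu n)
    (hf : ∀ x y, ‖x - y‖ = 1 → ‖f x - f y‖ = 1) (hne : ∃ x y, ‖f x - f y‖ ≠ ‖x - y‖) :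
    ∃ g : Eu d → Eu n, AEMeasurable g volume ∧ (∀ x, g x ∈ closure (Set.range f)) ∧
      (∀ x y, ‖x - y‖ = 1 → ‖g x - g y‖ = 1) ∧ ∃ x y, ‖g x - g y‖ ≠ ‖x - y‖ := by
  obtain ⟨M, rfl⟩ : ∃ M, d = M + 2 := ⟨d - 2, by omega⟩
  obtain ⟨x, y, h⟩ := hne
  exact core BRA.lift_JM isClosed_closure hf (fun h' => h (h' x y))
    fun x => subset_closure ⟨x, rfl⟩

end Pool.Agent.MP_66cee2_co.ME
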