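import Pool.Agent.MP_66cee2_co.X.Defs

/-! Measurable selection of a point all of whose neighbourhoods are not negligible. -/

namespace Pool.Agent.MP_66cee2_co.ME

open Set Filter Metric Topology Pool.Agent.MP_66cee2_co.X

variable {n : ℕ}

/-- an ideal of sets. -/
structure Idl (p : Set (E n) → Prop) : Prop where
  empty : p ∅
  mono : ∀ ⦃s t⦄, s ⊆ t → p t → p s
  union : ∀ ⦃s t⦄, p s → p t → p (s ∪ t)

theorem Idl.point {p : Set (E n) → Prop} (h : Idl p) {a : E n} {ρ : ℝ}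
    (ha : ¬ p (closedBall a ρ)) : ∃ c ∈ closedBall a ρ, ∀ r, 0 < r → ¬ p (closedBall c r) := by
  by_contra hc
  push Not at hc
  refine ha ((isCompact_closedBall a ρ).induction_on h.empty h.mono h.union fun c hc' => ?_)
  obtain ⟨r, hr, hp⟩ := hc c hc'
  exact ⟨closedBall c r, mem_nhdsWithin_of_mem_nhds (closedBall_mem_nhds c hr), hp⟩

theorem Idl.near {p : Set (E n) → Prop} (h : Idl p) {q : ℕ → E n} (hq : DenseRange q) {a : E n}
    {ρ r : ℝ} (hr : 0 < r) (ha : ¬ p (closedBall a ρ)) :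
    ∃ m, dist (q m) a ≤ ρ + r ∧ ¬ p (closedBall (q m) r) := by
  obtain ⟨c, hc, hp⟩ := h.point ha
  obtain ⟨m, hm⟩ := hq.exists_dist_lt c (half_pos hr)
  refine ⟨m, ?_, fun h' => hp _ (half_pos hr) (h.mono (closedBall_subset_closedBall' ?_) h')⟩
  · have h1 := dist_triangle (q m) c a
    rw [dist_comm] at hm
    rw [mem_closedBall] at hc
    linarith
  · linarith

theorem sel {X : Type} [MeasurableSpace X] (p : X → Set (E n) → Prop) (hp : ∀ x, Idl (p x))
    (h0 : ∀ x, ∃ R, ¬ p x (closedBall 0 R))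
    (hm : ∀ q r, MeasurableSet {x | p x (closedBall q r)}) :
    ∃ g : X → E n, Measurable g ∧ ∀ x r, 0 < r → ¬ p x (closedBall (g x) r) := by
  classical
  obtain ⟨q, hq⟩ := TopologicalSpace.exists_dense_seq (E n)
  have start : ∃ g : X → E n, Measurable g ∧ ∀ x, ¬ p x (closedBall (g x) ((1 / 2) ^ 0)) := by
    have ex : ∀ x, ∃ m, ¬ p x (closedBall (q m) ((1 / 2) ^ 0)) := fun x => by
      obtain ⟨R, hR⟩ := h0 x
      exact ((hp x).near hq (by positivity) hR).imp fun m h => h.2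
    exact ⟨fun x => q (Nat.find (ex x)),
      Measurable.find (f := fun m _ => q m) (fun _ => measurable_const)
        (fun m => (hm _ _).compl) ex, fun x => Nat.find_spec (ex x)⟩
  have step : ∀ (k : ℕ) (g : X → E n),
      (Measurable g ∧ ∀ x, ¬ p x (closedBall (g x) ((1 / 2) ^ k))) → ∃ g' : X → E n,
      (Measurable g' ∧ ∀ x, ¬ p x (closedBall (g' x) ((1 / 2) ^ (k + 1)))) ∧
        ∀ x, dist (g x) (g' x) ≤ 2 * (1 / 2) ^ k := by
    rintro k g ⟨g1, g2⟩
    have ex : ∀ x, ∃ m, dist (g x) (q m) ≤ 2 * (1 / 2) ^ k ∧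
        ¬ p x (closedBall (q m) ((1 / 2) ^ (k + 1))) := fun x => by
      refine ((hp x).near hq (r := (1 / 2) ^ (k + 1)) (by positivity) (g2 x)).imp
        fun m h => ⟨?_, h.2⟩
      have h1 : (0 : ℝ) < (1 / 2) ^ k := by positivity
      have h2 := h.1
      rw [pow_succ] at h2
      rw [dist_comm]
      linarith
    refine ⟨fun x => q (Nat.find (ex x)),
      ⟨Measurable.find (f := fun m _ => q m) (fun _ => measurable_const) (fun m => ?_) ex,
        fun x => (Nat.find_spec (ex x)).2⟩, fun x => (Nat.find_spec (ex x)).1⟩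
    exact (measurableSet_le (g1.dist measurable_const) measurable_const).inter (hm _ _).compl
  choose! T hT using step
  obtain ⟨g₀, hg₀⟩ := start
  let G : ℕ → X → E n := fun k => Nat.rec g₀ T k
  have hG : ∀ k, Measurable (G k) ∧ ∀ x, ¬ p x (closedBall (G k x) ((1 / 2) ^ k)) := by
    intro k
    induction k with
    | zero => exact hg₀
    | succ k ih => exact (hT k _ ih).1
  have hC : ∀ x, ∃ u, Tendsto (fun k => G k x) atTop (𝓝 u) := fun x =>
    cauchySeq_tendsto_of_complete (cauchySeq_of_le_geometric (1 / 2) 2 (by norm_num)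
      fun k => (hT k _ (hG k)).2 x)
  choose g hg using hC
  refine ⟨g, measurable_of_tendsto_metrizable (fun k => (hG k).1) (tendsto_pi_nhds.2 hg),
    fun x r hr h => ?_⟩
  have h1 : ∀ᶠ k in atTop, dist (G k x) (g x) < r / 2 :=
    Metric.tendsto_nhds.1 (hg x) _ (half_pos hr)
  have h2 : ∀ᶠ k in atTop, ((1 : ℝ) / 2) ^ k < r / 2 :=
    (tendsto_pow_atTop_nhds_zero_of_lt_one (by norm_num) (by norm_num)).eventually_lt_const
      (half_pos hr)
  obtain ⟨k, k1, k2⟩ := (h1.and h2).exists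
  exact (hG k).2 x ((hp x).mono (closedBall_subset_closedBall' (by linarith)) h)

/-- the weight of the points that lie in `S`. -/
noncomputable def mass (N : ℕ) (a : ℕ → ℝ) (z : ℕ → E n) (S : Set (E n)) : ℝ :=
  ∑ i ∈ Finset.range N, a i * S.indicator 1 (z i)

/-- the weight tends to zero. -/
def Ngl (N : ℕ → ℕ) (a : ℕ → ℕ → ℝ) (z : ℕ → ℕ → E n) (S : Set (E n)) : Prop :=
  Tendsto (fun k => mass (N k) (a k) (z k) S) atTop (𝓝 0)

theorem ind_nonneg (S : Set (E n)) (u : E n) : (0 : ℝ) ≤ S.indicator 1 u :=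
  indicator_nonneg (fun _ _ => zero_le_one) u

theorem mass_nonneg {N : ℕ} {a : ℕ → ℝ} (ha : ∀ i, 0 ≤ a i) (z : ℕ → E n) (S : Set (E n)) :
    0 ≤ mass N a z S := Finset.sum_nonneg fun i _ => mul_nonneg (ha i) (ind_nonneg _ _)

theorem idl_ngl {N : ℕ → ℕ} {a : ℕ → ℕ → ℝ} (ha : ∀ k i, 0 ≤ a k i) (z : ℕ → ℕ → E n) :
    Idl (Ngl N a z) where
  empty := by simp [Ngl, mass]
  mono := fun s t hst h => squeeze_zero (fun k => mass_nonneg (ha k) _ _)
    (fun k => Finset.sum_le_sum fun i _ => mul_le_mul_of_nonneg_left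
      (indicator_le_indicator_of_subset hst (fun _ => zero_le_one) _) (ha k i)) h
  union := fun s t hs ht => by
    have h := Tendsto.add hs ht
    rw [add_zero] at h
    refine squeeze_zero (fun k => mass_nonneg (ha k) _ _) (fun k => ?_) h
    simp only [mass]
    rw [← Finset.sum_add_distrib]
    refine Finset.sum_le_sum fun i _ => ?_
    rw [← mul_add]
    refine mul_le_mul_of_nonneg_left ?_ (ha k i)
    have h1 := ind_nonneg s (z k i)
    have h2 := ind_nonneg t (z k i)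
    by_cases h3 : z k i ∈ s
    · rw [indicator_of_mem (mem_union_left _ h3), indicator_of_mem h3]
      linarith
    · by_cases h4 : z k i ∈ t
      · rw [indicator_of_mem (mem_union_right _ h4), indicator_of_mem h4]
        linarith
      · rw [indicator_of_notMem (fun h => h.elim h3 h4)]
        linarith

theorem freq {N : ℕ → ℕ} {a : ℕ → ℕ → ℝ} {z : ℕ → ℕ → E n} {S : Set (E n)}
    (h : ¬ Ngl N a z S) : ∃ᶠ k in atTop, ∃ i, z k i ∈ S := by
  intro h'
  refine h (tendsto_const_nhds.congr' (h'.mono fun k hk => ?_))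
  refine (Finset.sum_eq_zero fun i _ => ?_).symm
  rw [indicator_of_notMem (fun hi => hk ⟨i, hi⟩), mul_zero]

theorem not_ngl {N : ℕ → ℕ} {a : ℕ → ℕ → ℝ} {z : ℕ → ℕ → E n} {S : Set (E n)}
    (ha : ∀ k, ∑ i ∈ Finset.range (N k), a k i = 1) (h : ∀ᶠ k in atTop, ∀ i, z k i ∈ S) :
    ¬ Ngl N a z S := by
  intro h'
  have h1 : Tendsto (fun k => mass (N k) (a k) (z k) S) atTop (𝓝 1) := by
    refine tendsto_const_nhds.congr' (h.mono fun k hk => ?_)
    rw [← ha k]
    refine Finset.sum_congr rfl fun i _ => ?_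
    rw [indicator_of_mem (hk i), Pi.one_apply, mul_one]
  exact zero_ne_one (tendsto_nhds_unique h' h1)

theorem mem_of_ngl {N : ℕ → ℕ} {a : ℕ → ℕ → ℝ} {z : ℕ → ℕ → E n} {u : E n}
    (hu : ∀ r, 0 < r → ¬ Ngl N a z (closedBall u r)) {T : Set (E n)}
    (h : ∀ᶠ k in atTop, ∀ i, z k i ∈ T) : u ∈ closure T := by
  refine Metric.mem_closure_iff.2 fun r hr => ?_
  obtain ⟨k, ⟨i, hi⟩, hk⟩ := ((freq (hu _ (half_pos hr))).and_eventually h).exists
  refine ⟨_, hk i, ?_⟩
  rw [mem_closedBall, dist_comm] at hi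
  linarith

/-- a continuous function whose weighted squares tend to zero vanishes at the point. -/
theorem zero_of_ngl {N : ℕ → ℕ} {a b : ℕ → ℕ → ℝ} {z : ℕ → ℕ → E n} {u : E n} {κ : ℝ}
    (ha : ∀ k i, 0 ≤ a k i) (hκ : 0 < κ) (hb : ∀ᶠ k in atTop, ∀ i, κ ≤ b k i)
    (hu : ∀ r, 0 < r → ¬ Ngl N a z (closedBall u r)) {φ : E n → ℝ} (hφ : Continuous φ)
    (h : Tendsto (fun k => ∑ i ∈ Finset.range (N k), a k i * b k i * φ (z k i) ^ 2) atTop
      (𝓝 0)) : φ u = 0 := by
  by_contra h0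
  have h1 : 0 < φ u ^ 2 / 2 := by positivity
  have h2 : ∀ᶠ v in 𝓝 u, φ u ^ 2 / 2 < φ v ^ 2 :=
    ((hφ.pow 2).tendsto u).eventually_const_lt (by show φ u ^ 2 / 2 < φ u ^ 2; linarith)
  obtain ⟨r, hr, h3⟩ := nhds_basis_closedBall.eventually_iff.1 h2
  refine hu r hr ?_
  have h4 := h.const_mul (κ * (φ u ^ 2 / 2))⁻¹
  rw [mul_zero] at h4
  refine squeeze_zero' (Eventually.of_forall fun k => mass_nonneg (ha k) _ _)
    (hb.mono fun k hk => ?_) h4
  rw [← div_eq_inv_mul, le_div_iff₀ (by positivity), mass, Finset.sum_mul]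
  refine Finset.sum_le_sum fun i _ => ?_
  rw [mul_assoc, mul_assoc]
  refine mul_le_mul_of_nonneg_left ?_ (ha k i)
  by_cases h5 : z k i ∈ closedBall u r
  · rw [indicator_of_mem h5, Pi.one_apply, one_mul]
    exact mul_le_mul (hk i) (h3 h5).le h1.le (hκ.le.trans (hk i))
  · rw [indicator_of_notMem h5, zero_mul]
    exact mul_nonneg (hκ.le.trans (hk i)) (sq_nonneg _)

end Pool.Agent.MP_66cee2_co.ME
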