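import Pool.Agent.MP_66cee2_co.X.Defs

/-
From almost every unit pair to every unit pair: a limit along an ultrafilter above the filter of
sets with density one at the origin.
-/

namespace Pool.Agent.MP_66cee2_co.ME

open MeasureTheory Set Filter Metric Topology Pool.Agent.MP_66cee2_co.X

variable {d n : ℕ}

/-- the uniform measure on a ball around the origin. -/
noncomputable def um (d : ℕ) (δ : ℝ) : Measure (E d) :=
  (volume (closedBall (0 : E d) δ))⁻¹ • volume.restrict (closedBall (0 : E d) δ)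

theorem um_prob {δ : ℝ} (h : 0 < δ) : IsProbabilityMeasure (um d δ) := by
  refine ⟨?_⟩
  rw [um, Measure.smul_apply, Measure.restrict_apply MeasurableSet.univ, univ_inter, smul_eq_mul]
  exact ENNReal.inv_mul_cancel (measure_closedBall_pos volume _ h).ne' measure_closedBall_lt_top.ne

theorem um_ae {p : E d → Prop} (hp : ∀ᵐ y, p y) (x : E d) (δ : ℝ) : ∀ᵐ η ∂um d δ, p (x + η) :=
  Measure.ae_smul_measure (ae_restrict_of_ae
    ((measurePreserving_add_left volume x).quasiMeasurePreserving.ae hp)) _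

theorem um_le (δ : ℝ) : ∀ᵐ η ∂um d δ, ‖η‖ ≤ δ := by
  refine Measure.ae_smul_measure ?_ _
  filter_upwards [ae_restrict_mem measurableSet_closedBall] with η h
  simpa using h

theorem um_avg (f : E d → ℝ) (x : E d) (δ : ℝ) :
    ⨍ y in closedBall x δ, f y = ∫ η, f (x + η) ∂um d δ := by
  have h := (measurePreserving_add_left volume x).setIntegral_preimage_emb
    (measurableEmbedding_addLeft x) f (closedBall x δ)
  rw [preimage_add_closedBall] at h
  simp only [sub_self] at h
  rw [setAverage_eq, um, integral_smul_measure, h, Measure.real, Measure.addHaar_closedBall_center,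
    ENNReal.toReal_inv]

section

variable {g : E d → E n} {C : ℝ}

theorem um_int (hm : Measurable g) (hb : ∀ᵐ x, ‖g x‖ ≤ C + 2 * ‖x‖) (x : E d) (p : E n) {δ : ℝ}
    (h : 0 < δ) : Integrable (fun η => ‖g (x + η) - p‖) (um d δ) := by
  have := um_prob (d := d) h
  refine Integrable.of_bound (C := C + 2 * (‖x‖ + δ) + ‖p‖) ?_ ?_
  · exact (((hm.comp (measurable_const_add x)).sub_const p).norm).aestronglyMeasurable
  · filter_upwards [um_ae hb x δ, um_le δ] with η h1 h2
    rw [norm_norm]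
    linarith [norm_sub_le (g (x + η)) p, norm_add_le x η]

/-- points of Lebesgue. -/
def Lb (g : E d → E n) (x : E d) : Prop :=
  ∀ (w : ℕ → E d) (δ : ℕ → ℝ), Tendsto δ atTop (𝓝[>] 0) → (∀ j, ‖x - w j‖ ≤ δ j) →
    Tendsto (fun j => ∫ η, ‖g (w j + η) - g x‖ ∂um d (δ j)) atTop (𝓝 0)

theorem ae_lb (hm : Measurable g) (hb : ∀ᵐ x, ‖g x‖ ≤ C + 2 * ‖x‖) : ∀ᵐ x, Lb g x := by
  have hl : LocallyIntegrable g volume := by
    have hc : Continuous fun x : E d => C + 2 * ‖x‖ := by fun_prop
    refine (hc.locallyIntegrable (μ := volume)).mono hm.aestronglyMeasurable ?_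
    filter_upwards [hb] with x hx
    exact hx.trans (le_abs_self _)
  filter_upwards [IsUnifLocDoublingMeasure.ae_tendsto_average_norm_sub volume hl 1] with x hx
  intro w δ h1 h2
  have h := hx w δ h1 (Eventually.of_forall fun j => by simpa [dist_eq_norm] using h2 j)
  simpa only [um_avg (fun y => ‖g y - g x‖)] using h

theorem inv_lim : Tendsto (fun j : ℕ => 1 / ((j : ℝ) + 1)) atTop (𝓝[>] 0) :=
  tendsto_nhdsWithin_iff.2 ⟨tendsto_one_div_add_atTop_nhds_zero_nat,
    Eventually.of_forall fun j => by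
      show (0 : ℝ) < 1 / ((j : ℝ) + 1)
      positivity⟩

/-- directions of full measure are dense in the sphere. -/
theorem dense_dir {G : E d → Prop} (hG : ∀ᵐ ω ∂sig d, G ω) {u : E d} (hu : ‖u‖ = 1) {ε : ℝ}
    (hε : 0 < ε) : ∃ ω, G ω ∧ ‖u - ω‖ ≤ ε := by
  have hf : Measurable fun z : E d => ‖z‖⁻¹ • z := measurable_norm.inv.smul measurable_id
  have h1 := (ae_restrict_iff' measurableSet_ball).1 (ae_of_ae_map hf.aemeasurable hG)
  have h2 := Measure.dense_of_ae h1
  have hn : ‖(1 / 2 : ℝ) • u‖ = 1 / 2 := by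
    rw [norm_smul, hu]
    norm_num
  have hc : ContinuousAt (fun z : E d => ‖z‖⁻¹ • z) ((1 / 2 : ℝ) • u) :=
    (continuous_norm.continuousAt.inv₀ (by rw [hn]; norm_num)).smul continuousAt_id
  have he : ‖(1 / 2 : ℝ) • u‖⁻¹ • (1 / 2 : ℝ) • u = u := by
    rw [hn, smul_smul]
    norm_num
  have h3 : ∀ᶠ z in 𝓝 ((1 / 2 : ℝ) • u), ‖z‖⁻¹ • z ∈ ball u ε :=
    hc.eventually (by simp only [he]; exact ball_mem_nhds u hε)
  have h4 : ∀ᶠ z in 𝓝 ((1 / 2 : ℝ) • u), z ∈ ball (0 : E d) 1 :=
    isOpen_ball.mem_nhds (by rw [mem_ball_zero_iff, hn]; norm_num)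
  obtain ⟨z, hz, hz'⟩ := h2.inter_nhds_nonempty (h3.and h4)
  refine ⟨_, hz hz'.2, ?_⟩
  have h5 := hz'.1
  rw [mem_ball', dist_eq_norm] at h5
  exact h5.le

/-- every unit vector is good for almost every point. -/
theorem all_dir (hm : Measurable g) (hb : ∀ᵐ x, ‖g x‖ ≤ C + 2 * ‖x‖)
    (hp : AePair fun x y => ‖g x - g y‖ = 1) {u : E d} (hu : ‖u‖ = 1) :
    ∀ᵐ x, ‖g x - g (x + u)‖ = 1 := by
  have : IsFiniteMeasure (sig d) := by
    have : IsFiniteMeasure (volume.restrict (ball (0 : E d) 1)) :=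
      isFiniteMeasure_restrict.2 measure_ball_lt_top.ne
    unfold sig
    infer_instance
  have hs : MeasurableSet {q : E d × E d | ‖g q.1 - g (q.1 + q.2)‖ = 1} :=
    measurableSet_eq_fun ((hm.comp measurable_fst).sub
      (hm.comp (measurable_fst.add measurable_snd))).norm measurable_const
  have hG : ∀ᵐ ω ∂sig d, ∀ᵐ x, ‖g x - g (x + ω)‖ = 1 := (Measure.ae_ae_comm hs).1 hp
  choose ω h1 h2 using fun j : ℕ =>
    dense_dir hG hu (show (0 : ℝ) < 1 / ((j : ℝ) + 1) by positivity)
  have hL := ae_lb hm hb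
  filter_upwards [hL, (measurePreserving_add_right volume u).quasiMeasurePreserving.ae hL]
    with x hx hy
  have a1 := hx (fun _ => x) _ inv_lim fun j => by
    rw [sub_self, norm_zero]
    positivity
  have a2 := hy (fun j => x + ω j) _ inv_lim fun j => by
    rw [add_sub_add_left_eq_sub]
    exact h2 j
  have a3 := a1.add a2
  rw [add_zero] at a3
  have a4 : |‖g x - g (x + u)‖ - 1| ≤ 0 := by
    refine ge_of_tendsto' a3 fun j => ?_
    have hj : (0 : ℝ) < 1 / ((j : ℝ) + 1) := by positivity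
    have := um_prob (d := d) hj
    have i1 := um_int hm hb x (g x) hj
    have i2 := um_int hm hb (x + ω j) (g (x + u)) hj
    rw [← integral_add i1 i2]
    have e : |‖g x - g (x + u)‖ - 1| =
        ∫ _η, |‖g x - g (x + u)‖ - 1| ∂um d (1 / ((j : ℝ) + 1)) := by
      rw [integral_const, probReal_univ, one_smul]
    rw [e]
    refine integral_mono_ae (integrable_const _) (i1.add i2) ?_
    filter_upwards [um_ae (h1 j) x _] with η hη
    rw [add_right_comm] at hη
    rw [← hη]
    refine (abs_norm_sub_norm_le _ _).trans ?_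
    have e2 : g x - g (x + u) - (g (x + η) - g (x + ω j + η)) =
        (g (x + ω j + η) - g (x + u)) - (g (x + η) - g x) := by abel
    rw [e2]
    exact (norm_sub_le _ _).trans (add_comm _ _).le
  exact sub_eq_zero.1 (abs_nonpos_iff.1 a4)

end

/-- sets with density one at the origin. -/
def df (d : ℕ) : Filter (E d) where
  sets := {S | Tendsto (fun j : ℕ => um d (1 / ((j : ℝ) + 1)) Sᶜ) atTop (𝓝 0)}
  univ_sets := by simp
  sets_of_superset := fun h hS => tendsto_of_tendsto_of_tendsto_of_le_of_le tendsto_const_nhds h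
    (fun _ => zero_le) fun _ => measure_mono (compl_subset_compl.2 hS)
  inter_sets := fun {S T} h h' => by
    have h2 := Tendsto.add h h'
    rw [add_zero] at h2
    refine tendsto_of_tendsto_of_tendsto_of_le_of_le tendsto_const_nhds h2 (fun _ => zero_le)
      fun _ => ?_
    rw [compl_inter]
    exact measure_union_le _ _

theorem mem_df {S : Set (E d)} :
    S ∈ df d ↔ Tendsto (fun j : ℕ => um d (1 / ((j : ℝ) + 1)) Sᶜ) atTop (𝓝 0) := Iff.rfl

theorem df_neBot : (df d).NeBot := by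
  refine ⟨fun h => ?_⟩
  have h1 := mem_df.1 (empty_mem_iff_bot.2 h)
  have h2 : (fun j : ℕ => um d (1 / ((j : ℝ) + 1)) (∅ : Set (E d))ᶜ) = fun _ => 1 := by
    funext j
    have := um_prob (d := d) (show (0 : ℝ) < 1 / ((j : ℝ) + 1) by positivity)
    rw [compl_empty, measure_univ]
  rw [h2] at h1
  exact one_ne_zero (tendsto_nhds_unique tendsto_const_nhds h1)

theorem df_of_ae {p : E d → Prop} (h : ∀ j : ℕ, ∀ᵐ η ∂um d (1 / ((j : ℝ) + 1)), p η) :
    ∀ᶠ η in df d, p η := by
  refine mem_df.2 ?_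
  have h2 : (fun j : ℕ => um d (1 / ((j : ℝ) + 1)) {η | p η}ᶜ) = fun _ => 0 := funext h
  rw [h2]
  exact tendsto_const_nhds

theorem df_ae {p : E d → Prop} (hp : ∀ᵐ y, p y) (x : E d) : ∀ᶠ η in df d, p (x + η) :=
  df_of_ae fun _ => um_ae hp x _

theorem df_le : ∀ᶠ η in df d, ‖η‖ ≤ 1 :=
  df_of_ae fun j => (um_le _).mono fun _ h => h.trans (by
    rw [div_le_one (by positivity)]
    linarith [Nat.cast_nonneg (α := ℝ) j])

theorem df_lim {g : E d → E n} {C : ℝ} (hm : Measurable g) (hb : ∀ᵐ x, ‖g x‖ ≤ C + 2 * ‖x‖)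
    {x : E d} (hx : Lb g x) : Tendsto (fun η => g (x + η)) (df d) (𝓝 (g x)) := by
  refine Metric.tendsto_nhds.2 fun ε hε => mem_df.2 ?_
  have a1 := (hx (fun _ => x) _ inv_lim fun j => by
    rw [sub_self, norm_zero]
    positivity).const_mul ε⁻¹
  rw [mul_zero] at a1
  have a2 := ENNReal.tendsto_ofReal a1
  rw [ENNReal.ofReal_zero] at a2
  refine tendsto_of_tendsto_of_tendsto_of_le_of_le tendsto_const_nhds a2 (fun _ => zero_le)
    fun j => ?_
  have hj : (0 : ℝ) < 1 / ((j : ℝ) + 1) := by positivity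
  have := um_prob (d := d) hj
  have h := mul_meas_ge_le_integral_of_nonneg (Eventually.of_forall fun _ => norm_nonneg _)
    (um_int hm hb x (g x) hj) ε
  have e : {η | dist (g (x + η)) (g x) < ε}ᶜ = {η | ε ≤ ‖g (x + η) - g x‖} := by
    ext η
    simp [dist_eq_norm]
  show um d _ {η | dist (g (x + η)) (g x) < ε}ᶜ ≤ _
  rw [e, ← ofReal_measureReal]
  refine ENNReal.ofReal_le_ofReal ?_
  rw [← div_eq_inv_mul, le_div_iff₀ hε, mul_comm]
  exact h

/-- a version of the map that keeps every unit distance. -/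
theorem ult (g₀ : E d → E n) (hm : Measurable g₀) (C : ℝ) (hb : ∀ᵐ x, ‖g₀ x‖ ≤ C + 2 * ‖x‖)
    (hp : AePair fun x y => ‖g₀ x - g₀ y‖ = 1) :
    ∃ g : E d → E n, g =ᵐ[volume] g₀ ∧ ∀ x y, ‖x - y‖ = 1 → ‖g x - g y‖ = 1 := by
  have := df_neBot (d := d)
  have hU : (Ultrafilter.of (df d) : Filter (E d)) ≤ df d := Ultrafilter.of_le _
  have hex : ∀ x, ∃ p, Tendsto (fun η => g₀ (x + η)) (Ultrafilter.of (df d)) (𝓝 p) := by
    intro x
    obtain ⟨p, -, h⟩ := (isCompact_closedBall (0 : E n) (C + 2 * (‖x‖ + 1))).ultrafilter_le_nhds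
      ((Ultrafilter.of (df d)).map fun η => g₀ (x + η)) (by
        rw [le_principal_iff, Ultrafilter.coe_map, mem_map]
        filter_upwards [hU (df_ae hb x), hU df_le] with η h1 h2
        rw [mem_preimage, mem_closedBall_zero_iff]
        have h3 : ‖g₀ (x + η)‖ ≤ C + 2 * ‖x + η‖ := h1
        have h4 : ‖η‖ ≤ 1 := h2
        linarith [norm_add_le x η])
    exact ⟨p, h⟩
  choose g hg using hex
  refine ⟨g, ?_, fun x y h => ?_⟩
  · filter_upwards [ae_lb hm hb] with x hx
    exact tendsto_nhds_unique (hg x) ((df_lim hm hb hx).mono_left hU)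
  · have h1 := hU (df_ae (all_dir hm hb hp (u := y - x) (by rw [norm_sub_rev, h])) x)
    refine tendsto_nhds_unique ((hg x).sub (hg y)).norm (tendsto_const_nhds.congr' ?_)
    filter_upwards [h1] with η hη
    have h2 : ‖g₀ (x + η) - g₀ (x + η + (y - x))‖ = 1 := hη
    rw [show x + η + (y - x) = y + η by abel] at h2
    exact h2.symm

end Pool.Agent.MP_66cee2_co.ME
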